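import Mathlib

/-!
# A disconnected positive polytope in `Gr(2,4)`

The polytope `p_ij ≥ 0`, `3 (p12 + p34) - 5 (p13 + p24) - 4 (p14 + p23) ≥ 0` gives a positive
pentahedron in `Gr(2,4)` which is disconnected.
-/

set_option autoImplicit false

namespace Pool.Agent.Results.MP_7a7825_ag.Disconnected

open MvPolynomial Filter
open scoped LinearAlgebra.Projectivization Topology Matrix

/-! ## Definitions -/

/-- The real projective space `P^5`; the homogeneous coordinates are the Plücker coordinates, in the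
order `p12, p13, p23, p14, p24, p34`. -/
abbrev P5 : Type := ℙ ℝ (Fin 6 → ℝ)

/-- The Euclidean topology of `P^5`: the quotient topology of `ℝ^6 ∖ {0}`. -/
instance euclidean : TopologicalSpace P5 :=
  inferInstanceAs (TopologicalSpace (Quotient (projectivizationSetoid ℝ (Fin 6 → ℝ))))

/-- The Plücker quadric `p12 p34 - p13 p24 + p14 p23`. -/
def pl (v : Fin 6 → ℝ) : ℝ := v 0 * v 5 - v 1 * v 4 + v 3 * v 2

/-- The Grassmannian `Gr(2,4)` in its Plücker embedding. -/
def Gr : Set P5 := {x | pl x.rep = 0}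

/-- The linear forms (coefficient vectors) `p12, p13, p23, p14, p24, p34, h_1, ..., h_m`. -/
def forms {m : ℕ} (h : Fin m → Fin 6 → ℝ) : Fin 6 ⊕ Fin m → Fin 6 → ℝ :=
  Sum.elim (fun i => Pi.single i 1) h

/-- The forms `p12, p14, p23, p34, h_1, ..., h_m`. -/
def facetIndex {m : ℕ} : Fin 4 ⊕ Fin m → Fin 6 ⊕ Fin m := Sum.map ![0, 3, 2, 5] id

/-- The subset of `P^5` given by the inequalities `p_ij ≥ 0` and `h_i ≥ 0`, with the sign
convention `l_i l_j ≥ 0` for all `i`, `j`. -/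
def polytope {m : ℕ} (h : Fin m → Fin 6 → ℝ) : Set P5 :=
  {x | ∀ i j, 0 ≤ (forms h i ⬝ᵥ x.rep) * (forms h j ⬝ᵥ x.rep)}

/-- `polytope h` is a simple polytope with `m + 6` facets, which lie on the Plücker hyperplanes and
on the hyperplanes `h_i = 0`: it has an interior point, it is compact and convex in the affine chart
`u ≠ 0`, every one of the `m + 6` hyperplanes contains a point at which all other forms are
positive, and the arrangement of these hyperplanes is simple. -/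
structure IsSimplePolytope {m : ℕ} (h : Fin m → Fin 6 → ℝ) : Prop where
  full : ∃ v : Fin 6 → ℝ, ∀ i, 0 < forms h i ⬝ᵥ v
  chart : ∃ u : Fin 6 → ℝ, ∀ v : Fin 6 → ℝ, v ≠ 0 → (∀ i, 0 ≤ forms h i ⬝ᵥ v) → 0 < u ⬝ᵥ v
  facet : ∀ i, ∃ v : Fin 6 → ℝ, forms h i ⬝ᵥ v = 0 ∧ ∀ j, j ≠ i → 0 < forms h j ⬝ᵥ v
  simple : ∀ s : Finset (Fin 6 ⊕ Fin m), s.card = 6 →
    LinearIndependent ℝ (fun i : s => forms h i)

/-- The interior of `B ∩ A` in `A`. -/
def relInterior (A B : Set P5) : Set P5 := {x | x ∈ A ∧ ∃ U : Set P5, IsOpen U ∧ x ∈ U ∧ U ∩ A ⊆ B}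

/-- Zariski closed subsets of `P^5(ℝ)`. -/
def IsZariskiClosed (Z : Set P5) : Prop :=
  ∃ F : Set (MvPolynomial (Fin 6) ℝ), (∀ f ∈ F, ∃ d, f.IsHomogeneous d) ∧
    Z = {x | ∀ f ∈ F, eval x.rep f = 0}

/-- The Zariski closure. -/
def zariskiClosure (A : Set P5) : Set P5 := ⋂₀ {Z | IsZariskiClosed Z ∧ A ⊆ Z}

/-- Irreducible Zariski closed subsets. -/
def IsIrred (Z : Set P5) : Prop :=
  IsZariskiClosed Z ∧ Z.Nonempty ∧
    ∀ A B, IsZariskiClosed A → IsZariskiClosed B → Z ⊆ A ∪ B → Z ⊆ A ∨ Z ⊆ B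

/-- The irreducible components of a Zariski closed set. -/
def components (Z : Set P5) : Set (Set P5) := {C | Maximal (fun C => IsIrred C ∧ C ⊆ Z) C}

/-- The facets of a subset `S` of `Gr(2,4)`: for every irreducible component `C` of the Zariski
closure of the boundary of `S` in `Gr(2,4)`, the closure of the interior in `C` of `C ∩ S`. -/
def facets (S : Set P5) : Set (Set P5) :=
  (fun C => C ∩ closure (relInterior C S)) '' components (zariskiClosure (S \ relInterior Gr S))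

/-- `S = P ∩ Gr(2,4)`, for the polytope `P` given by `h`, is a positive polytope in `Gr(2,4)`. -/
structure IsPositivePolytope {m : ℕ} (h : Fin m → Fin 6 → ℝ) (S : Set P5) : Prop where
  simple : IsSimplePolytope h
  eq : S = polytope h ∩ Gr
  closed : IsClosed S
  regular : S = closure (relInterior Gr S)
  facets : ∃ F : Fin 4 ⊕ Fin m → Set P5, Function.Injective F ∧ facets S = Set.range F ∧
    ∀ i, (F i).Nonempty ∧ ∀ x ∈ F i, forms h (facetIndex i) ⬝ᵥ x.rep = 0

/-! ## Generalities -/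

theorem eval_smul_of_hom {σ : Type*} [Fintype σ] {f : MvPolynomial σ ℝ} {d : ℕ}
    (hf : f.IsHomogeneous d) (a : ℝ) (v : σ → ℝ) : eval (a • v) f = a ^ d * eval v f := by
  rw [eval_eq', eval_eq', Finset.mul_sum]
  refine Finset.sum_congr rfl fun m hm => ?_
  have hd : m.degree = d := by
    by_contra h
    exact (mem_support_iff.1 hm) (hf.coeff_eq_zero h)
  have h2 : ∏ i, (a • v) i ^ m i = a ^ d * ∏ i, v i ^ m i := by
    simp only [Pi.smul_apply, smul_eq_mul, mul_pow, Finset.prod_mul_distrib]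
    rw [Finset.prod_pow_eq_pow_sum, ← hd, Finsupp.degree_eq_sum]
  rw [h2]
  ring

theorem eval_rep {f : MvPolynomial (Fin 6) ℝ} {d : ℕ} (hf : f.IsHomogeneous d) (v : Fin 6 → ℝ)
    (hv : v ≠ 0) : eval (Projectivization.mk ℝ v hv).rep f = 0 ↔ eval v f = 0 := by
  obtain ⟨a, ha⟩ := Projectivization.exists_smul_eq_mk_rep ℝ v hv
  rw [← ha]
  have : a • v = (a : ℝ) • v := rfl
  rw [this, eval_smul_of_hom hf]
  simp

theorem pl_smul (a : ℝ) (v : Fin 6 → ℝ) : pl (a • v) = a ^ 2 * pl v := by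
  simp only [pl, Pi.smul_apply, smul_eq_mul]
  ring

theorem mem_Gr_mk (v : Fin 6 → ℝ) (hv : v ≠ 0) :
    Projectivization.mk ℝ v hv ∈ Gr ↔ pl v = 0 := by
  obtain ⟨a, ha⟩ := Projectivization.exists_smul_eq_mk_rep ℝ v hv
  change pl _ = 0 ↔ _
  rw [← ha]
  have : a • v = (a : ℝ) • v := rfl
  rw [this, pl_smul]
  simp

theorem dot_rep (c v : Fin 6 → ℝ) (hv : v ≠ 0) :
    c ⬝ᵥ (Projectivization.mk ℝ v hv).rep = 0 ↔ c ⬝ᵥ v = 0 := by
  obtain ⟨a, ha⟩ := Projectivization.exists_smul_eq_mk_rep ℝ v hv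
  rw [← ha]
  have : a • v = (a : ℝ) • v := rfl
  rw [this, dotProduct_smul]
  simp

theorem pow_pos_of_ne (a : ℝˣ) : 0 < (a : ℝ) ^ 2 := by
  have := a.ne_zero
  positivity

theorem mem_polytope_mk {m : ℕ} (h : Fin m → Fin 6 → ℝ) (v : Fin 6 → ℝ) (hv : v ≠ 0) :
    Projectivization.mk ℝ v hv ∈ polytope h ↔
      ∀ i j, 0 ≤ (forms h i ⬝ᵥ v) * (forms h j ⬝ᵥ v) := by
  obtain ⟨a, ha⟩ := Projectivization.exists_smul_eq_mk_rep ℝ v hv
  change (∀ i j, _) ↔ _
  rw [← ha]
  have : a • v = (a : ℝ) • v := rfl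
  rw [this]
  refine forall_congr' fun i => forall_congr' fun j => ?_
  rw [dotProduct_smul, dotProduct_smul]
  have h1 : (a : ℝ) • (forms h i ⬝ᵥ v) * (a : ℝ) • (forms h j ⬝ᵥ v)
      = (a : ℝ) ^ 2 * ((forms h i ⬝ᵥ v) * (forms h j ⬝ᵥ v)) := by
    simp only [smul_eq_mul]
    ring
  rw [h1]
  have h2 : 0 < (a : ℝ) ^ 2 := pow_pos_of_ne a
  exact ⟨fun h => nonneg_of_mul_nonneg_right h h2, fun h => mul_nonneg h2.le h⟩

/-- Sets given by scale invariant positivity conditions are open. -/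
theorem isOpen_of_pos (g : (Fin 6 → ℝ) → ℝ) (hg : Continuous g)
    (hs : ∀ a : ℝ, a ≠ 0 → ∀ v, 0 < g (a • v) ↔ 0 < g v) : IsOpen {x : P5 | 0 < g x.rep} := by
  have hq : Topology.IsQuotientMap
      (Quotient.mk (projectivizationSetoid ℝ (Fin 6 → ℝ))) := isQuotientMap_quot_mk
  refine hq.isOpen_preimage.1 ?_
  have : (Quotient.mk (projectivizationSetoid ℝ (Fin 6 → ℝ))) ⁻¹' {x : P5 | 0 < g x.rep}
      = {v : {v : Fin 6 → ℝ // v ≠ 0} | 0 < g v} := by
    ext ⟨v, hv⟩
    change 0 < g (Projectivization.mk ℝ v hv).rep ↔ 0 < g v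
    obtain ⟨a, ha⟩ := Projectivization.exists_smul_eq_mk_rep ℝ v hv
    rw [← ha]
    exact hs (a : ℝ) a.ne_zero v
  refine (congrArg IsOpen this).mpr ?_
  exact isOpen_lt continuous_const (hg.comp continuous_subtype_val)

/-- Open sets contain the limits of curves. -/
theorem eventually_mem {U : Set P5} (hU : IsOpen U) {v : Fin 6 → ℝ} (hv : v ≠ 0)
    (hvU : Projectivization.mk ℝ v hv ∈ U) {ι : Type*} {l : Filter ι} {y : ι → Fin 6 → ℝ}
    (hy : Tendsto y l (𝓝 v)) :
    ∀ᶠ t in l, ∃ h : y t ≠ 0, Projectivization.mk ℝ (y t) h ∈ U := by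
  have hq : Topology.IsQuotientMap
      (Quotient.mk (projectivizationSetoid ℝ (Fin 6 → ℝ))) := isQuotientMap_quot_mk
  have h1 := hU.preimage hq.continuous
  obtain ⟨W, hW, hWU⟩ := isOpen_induced_iff.1 h1
  have hvW : v ∈ W := by
    have : (⟨v, hv⟩ : {v : Fin 6 → ℝ // v ≠ 0}) ∈ Subtype.val ⁻¹' W := by
      rw [hWU]
      exact hvU
    exact this
  have h2 : ∀ᶠ t in l, y t ∈ W := hy.eventually (hW.mem_nhds hvW)
  have h3 : ∀ᶠ t in l, y t ≠ 0 := hy.eventually (isOpen_ne.mem_nhds hv)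
  filter_upwards [h2, h3] with t ht2 ht3
  refine ⟨ht3, ?_⟩
  have : (⟨y t, ht3⟩ : {v : Fin 6 → ℝ // v ≠ 0}) ∈ Subtype.val ⁻¹' W := ht2
  rw [hWU] at this
  exact this

/-- Nonnegative representatives. -/
theorem exists_nonneg {ι : Type*} (l : ι → ℝ) (h : ∀ i j, 0 ≤ l i * l j) :
    ∃ s : ℝ, (s = 1 ∨ s = -1) ∧ ∀ i, 0 ≤ s * l i := by
  by_cases hneg : ∃ i, l i < 0
  · obtain ⟨i, hi⟩ := hneg
    refine ⟨-1, Or.inr rfl, fun j => ?_⟩
    have := h i j
    by_contra hcon
    push Not at hcon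
    have h3 : 0 < l j := by linarith
    nlinarith
  · push Not at hneg
    exact ⟨1, Or.inl rfl, fun j => by simpa using hneg j⟩

/-! ## The example -/

/-- The form `h = 3 (p12 + p34) - 5 (p13 + p24) - 4 (p14 + p23)`. -/
def hh : Fin 1 → Fin 6 → ℝ := fun _ => ![3, -5, -4, -4, -5, 3]

theorem fv_inl (i : Fin 6) (v : Fin 6 → ℝ) : forms hh (Sum.inl i) ⬝ᵥ v = v i := by
  simp [forms]

theorem fv_inr (i : Fin 1) (v : Fin 6 → ℝ) : forms hh (Sum.inr i) ⬝ᵥ v
    = 3 * v 0 - 5 * v 1 - 4 * v 2 - 4 * v 3 - 5 * v 4 + 3 * v 5 := by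
  simp [forms, hh, dotProduct, Fin.sum_univ_succ]
  ring

/-- The positive pentahedron. -/
def S : Set P5 := polytope hh ∩ Gr

theorem mem_S_mk (v : Fin 6 → ℝ) (hv : v ≠ 0) : Projectivization.mk ℝ v hv ∈ S ↔
    (∀ i j, 0 ≤ (forms hh i ⬝ᵥ v) * (forms hh j ⬝ᵥ v)) ∧ pl v = 0 := by
  rw [S, Set.mem_inter_iff, mem_polytope_mk, mem_Gr_mk]

theorem mem_S_of_nonneg (v : Fin 6 → ℝ) (hv : v ≠ 0) (h : ∀ i, 0 ≤ forms hh i ⬝ᵥ v)
    (hp : pl v = 0) : Projectivization.mk ℝ v hv ∈ S :=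
  (mem_S_mk v hv).2 ⟨fun i j => mul_nonneg (h i) (h j), hp⟩

theorem exists_rep {x : P5} (hx : x ∈ S) : ∃ (v : Fin 6 → ℝ) (hv : v ≠ 0),
    x = Projectivization.mk ℝ v hv ∧ (∀ i, 0 ≤ forms hh i ⬝ᵥ v) ∧ pl v = 0 := by
  obtain ⟨s, hs, hs2⟩ := exists_nonneg (fun i => forms hh i ⬝ᵥ x.rep) hx.1
  have hs0 : s ≠ 0 := by rcases hs with rfl | rfl <;> norm_num
  refine ⟨s • x.rep, smul_ne_zero hs0 x.rep_nonzero, ?_, ?_, ?_⟩
  · conv_lhs => rw [← x.mk_rep]
    rw [Projectivization.mk_eq_mk_iff']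
    exact ⟨s⁻¹, by rw [smul_smul, inv_mul_cancel₀ hs0, one_smul]⟩
  · intro i
    rw [dotProduct_smul]
    exact hs2 i
  · rw [pl_smul]
    have : pl x.rep = 0 := hx.2
    rw [this, mul_zero]

/-- The key estimate. -/
theorem ne_of_mem (v : Fin 6 → ℝ) (hv : v ≠ 0) (h : ∀ i, 0 ≤ forms hh i ⬝ᵥ v)
    (hp : pl v = 0) : v 0 ≠ v 5 := by
  intro h05
  have h0 := h (Sum.inl 0)
  have h1 := h (Sum.inl 1)
  have h2 := h (Sum.inl 2)
  have h3 := h (Sum.inl 3)
  have h4 := h (Sum.inl 4)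
  have h5 := h (Sum.inl 5)
  have h6 := h (Sum.inr 0)
  rw [fv_inl] at h0 h1 h2 h3 h4 h5
  rw [fv_inr] at h6
  unfold pl at hp
  have ha : v 0 = 0 := by
    have e1 : 5 * (v 1 + v 4) ≤ 6 * v 0 := by linarith
    have e2 : (5 * (v 1 + v 4)) ^ 2 ≤ (6 * v 0) ^ 2 := by
      apply pow_le_pow_left₀ (by linarith) e1
    rw [← h05] at hp
    nlinarith [sq_nonneg (v 1 - v 4), mul_nonneg h2 h3, sq_nonneg (v 0)]
  apply hv
  have hb : v 5 = 0 := by rw [← h05, ha]
  funext i
  fin_cases i <;> simp <;> linarith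

/-- A positive `v` with `pl v = 0`. -/
def Good (v : Fin 6 → ℝ) : Prop := pl v = 0 ∧ ∀ i, 0 < forms hh i ⬝ᵥ v

theorem Good.ne_zero {v : Fin 6 → ℝ} (h : Good v) : v ≠ 0 := by
  rintro rfl
  have := h.2 (Sum.inl 0)
  simp at this

/-- Sets on which some of the forms have the same strict sign are open. -/
theorem isOpen_same (T : Fin 6 ⊕ Fin 1 → Prop) : IsOpen {x : P5 | ∀ i, T i → ∀ j, T j →
    0 < (forms hh i ⬝ᵥ x.rep) * (forms hh j ⬝ᵥ x.rep)} := by
  simp only [Set.ofPred_forall]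
  refine isOpen_iInter_of_finite fun i => isOpen_iInter_of_finite fun _ =>
    isOpen_iInter_of_finite fun j => isOpen_iInter_of_finite fun _ => ?_
  refine isOpen_of_pos (fun v => (forms hh i ⬝ᵥ v) * (forms hh j ⬝ᵥ v)) ?_ ?_
  · unfold dotProduct
    fun_prop
  · intro a ha v
    rw [dotProduct_smul, dotProduct_smul]
    have h1 : a • (forms hh i ⬝ᵥ v) * a • (forms hh j ⬝ᵥ v)
      = a ^ 2 * ((forms hh i ⬝ᵥ v) * (forms hh j ⬝ᵥ v)) := by
      simp only [smul_eq_mul]
      ring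
    rw [h1]
    exact mul_pos_iff_of_pos_left (by positivity)

theorem mk_mem_same (T : Fin 6 ⊕ Fin 1 → Prop) (v : Fin 6 → ℝ) (hv : v ≠ 0)
    (h : ∀ i, T i → 0 < forms hh i ⬝ᵥ v) :
    Projectivization.mk ℝ v hv ∈ {x : P5 | ∀ i, T i → ∀ j, T j →
    0 < (forms hh i ⬝ᵥ x.rep) * (forms hh j ⬝ᵥ x.rep)} := by
  intro i hi j hj
  obtain ⟨a, ha⟩ := Projectivization.exists_smul_eq_mk_rep ℝ v hv
  rw [← ha]
  have : a • v = (a : ℝ) • v := rfl
  rw [this, dotProduct_smul, dotProduct_smul]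
  have h1 : (a : ℝ) • (forms hh i ⬝ᵥ v) * (a : ℝ) • (forms hh j ⬝ᵥ v)
      = (a : ℝ) ^ 2 * ((forms hh i ⬝ᵥ v) * (forms hh j ⬝ᵥ v)) := by
    simp only [smul_eq_mul]
    ring
  rw [h1]
  exact mul_pos (pow_pos_of_ne a) (mul_pos (h i hi) (h j hj))

theorem Good.mem_relInterior {v : Fin 6 → ℝ} (h : Good v) :
    Projectivization.mk ℝ v h.ne_zero ∈ relInterior Gr S := by
  refine ⟨(mem_Gr_mk v _).2 h.1, _, isOpen_same (fun _ => True),
    mk_mem_same _ v _ fun i _ => h.2 i, ?_⟩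
  rintro x ⟨hx, hxG⟩
  exact ⟨fun i j => (hx i trivial j trivial).le, hxG⟩

/-! ### `S` is the closure of its interior -/

/-- The squared distance. -/
def sqd (m n : ℕ) : ℕ := (m - n) ^ 2 + (n - m) ^ 2

/-- The first index of a Plücker coordinate. -/
def ia : Fin 6 → ℕ := ![1, 1, 2, 1, 2, 3]

/-- The second index of a Plücker coordinate. -/
def ib : Fin 6 → ℕ := ![2, 3, 3, 4, 4, 4]

/-- Exponents of the diagonal terms of the minors. -/
def ee (I J : Fin 6) : ℕ := sqd (ia I) (ia J) + sqd (ib I) (ib J)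

/-- Exponents of the other terms of the minors. -/
def ff (I J : Fin 6) : ℕ := sqd (ia I) (ib J) + sqd (ib I) (ia J)

/-- The action of the totally positive matrix `q ^ ((i - j) ^ 2)`. -/
def tp (q : ℝ) (v : Fin 6 → ℝ) : Fin 6 → ℝ := fun I => ∑ J, (q ^ ee I J - q ^ ff I J) * v J

theorem ee_lt_ff : ∀ I J, ee I J < ff I J := by decide

theorem ee_eq : ∀ I J, ee I J = 0 ↔ I = J := by decide

theorem tp_zero (v : Fin 6 → ℝ) : tp 0 v = v := by
  funext I
  unfold tp
  rw [Finset.sum_eq_single_of_mem I (Finset.mem_univ I)]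
  · have h1 : ee I I = 0 := (ee_eq I I).2 rfl
    have h2 : ff I I ≠ 0 := by have := ee_lt_ff I I; omega
    rw [h1, zero_pow h2]
    simp
  · intro J _ hJ
    have h1 : ee I J ≠ 0 := fun h => hJ ((ee_eq I J).1 h).symm
    have h2 : ff I J ≠ 0 := by have := ee_lt_ff I J; omega
    rw [zero_pow h1, zero_pow h2]
    simp

theorem tp_pos {q : ℝ} (hq0 : 0 < q) (hq1 : q < 1) {v : Fin 6 → ℝ} (hv : v ≠ 0)
    (h : ∀ i, 0 ≤ v i) (I : Fin 6) : 0 < tp q v I := by
  have hc : ∀ J, 0 < q ^ ee I J - q ^ ff I J := fun J =>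
    sub_pos.2 (pow_lt_pow_right_of_lt_one₀ hq0 hq1 (ee_lt_ff I J))
  obtain ⟨J, hJ⟩ := Function.ne_iff.1 hv
  refine Finset.sum_pos' (fun K _ => mul_nonneg (hc K).le (h K)) ⟨J, Finset.mem_univ J, ?_⟩
  exact mul_pos (hc J) (lt_of_le_of_ne (h J) (Ne.symm hJ))

theorem pl_tp (q : ℝ) (v : Fin 6 → ℝ) :
    pl (tp q v) = (1 - q ^ 2) ^ 3 * (1 - q ^ 4) ^ 2 * (1 - q ^ 6) * pl v := by
  simp only [pl, tp, Fin.sum_univ_succ, ee, ff, sqd, ia, ib]
  simp
  ring

theorem tendsto_tp (v : Fin 6 → ℝ) : Tendsto (fun q => tp q v) (𝓝[>] 0) (𝓝 v) := by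
  have h : Continuous fun q => tp q v := by
    unfold tp
    fun_prop
  have h2 := h.tendsto 0
  rw [tp_zero] at h2
  exact h2.mono_left nhdsWithin_le_nhds

/-- Positive points are dense in the part of the cone with `h > 0`. -/
theorem exists_good {v : Fin 6 → ℝ} (hv : v ≠ 0) (hn : ∀ i, 0 ≤ v i)
    (hh0 : 0 < forms hh (Sum.inr 0) ⬝ᵥ v) (hp : pl v = 0) {U : Set P5} (hU : IsOpen U)
    (hvU : Projectivization.mk ℝ v hv ∈ U) :
    ∃ (w : Fin 6 → ℝ) (h : Good w), Projectivization.mk ℝ w h.ne_zero ∈ U := by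
  have h1 := eventually_mem hU hv hvU (tendsto_tp v)
  have h2 : ∀ᶠ q in 𝓝[>] (0 : ℝ), 0 < forms hh (Sum.inr 0) ⬝ᵥ (tp q v) := by
    have hc : Continuous fun w : Fin 6 → ℝ => forms hh (Sum.inr 0) ⬝ᵥ w := by
      unfold dotProduct
      fun_prop
    exact ((hc.tendsto v).comp (tendsto_tp v)).eventually (isOpen_Ioi.mem_nhds hh0)
  have h3 : ∀ᶠ q in 𝓝[>] (0 : ℝ), q < 1 := nhdsWithin_le_nhds (Iio_mem_nhds one_pos)
  have h4 : ∀ᶠ q in 𝓝[>] (0 : ℝ), 0 < q := self_mem_nhdsWithin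
  obtain ⟨q, ⟨hq1, hq2⟩, hq3, hq4, hq5⟩ := (h1.and (h2.and (h3.and h4))).exists
  refine ⟨tp q v, ⟨by rw [pl_tp, hp, mul_zero], ?_⟩, hq2⟩
  rintro (i | i)
  · rw [fv_inl]
    exact tp_pos hq5 hq4 hv hn i
  · fin_cases i
    exact hq3

/-- The torus action. -/
def torus (s : ℝ) (v : Fin 6 → ℝ) : Fin 6 → ℝ :=
  ![s ^ 2 * v 0, s * v 1, s * v 2, s * v 3, s * v 4, v 5]

theorem pl_torus (s : ℝ) (v : Fin 6 → ℝ) : pl (torus s v) = s ^ 2 * pl v := by
  simp only [pl, torus]
  simp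
  ring

theorem torus_one (v : Fin 6 → ℝ) : torus 1 v = v := by
  funext i
  fin_cases i <;> simp [torus]

theorem tendsto_torus (v : Fin 6 → ℝ) (A : Set ℝ) :
    Tendsto (fun s => torus s v) (𝓝[A] 1) (𝓝 v) := by
  have h : Continuous fun s => torus s v := by
    refine continuous_pi fun i => ?_
    fin_cases i <;> simp [torus] <;> fun_prop
  have h2 := h.tendsto 1
  rw [torus_one] at h2
  exact h2.mono_left nhdsWithin_le_nhds

theorem torus_nonneg {s : ℝ} (hs : 0 < s) {v : Fin 6 → ℝ} (h : ∀ i, 0 ≤ v i) (i : Fin 6) :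
    0 ≤ torus s v i := by
  have h0 := h 0
  have h1 := h 1
  have h2 := h 2
  have h3 := h 3
  have h4 := h 4
  have h5 := h 5
  fin_cases i <;> simp [torus] <;> positivity

/-- Every open set which meets `S` contains a positive point. -/
theorem exists_good_of_mem {x : P5} (hx : x ∈ S) {U : Set P5} (hU : IsOpen U) (hxU : x ∈ U) :
    ∃ (w : Fin 6 → ℝ) (h : Good w), Projectivization.mk ℝ w h.ne_zero ∈ U := by
  obtain ⟨v, hv, rfl, hn, hp⟩ := exists_rep hx
  have hn' : ∀ i, 0 ≤ v i := fun i => by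
    have := hn (Sum.inl i)
    rwa [fv_inl] at this
  rcases (hn (Sum.inr 0)).lt_or_eq with hpos | hzero
  · exact exists_good hv hn' hpos hp hU hxU
  · have hne := ne_of_mem v hv hn hp
    rw [fv_inr] at hzero
    have key : ∀ s : ℝ, forms hh (Sum.inr 0) ⬝ᵥ (torus s v) = 3 * (1 - s) * (v 5 - s * v 0) := by
      intro s
      rw [fv_inr]
      simp only [torus]
      simp
      linear_combination (-s) * hzero
    rcases lt_or_gt_of_ne hne with hlt | hgt
    · -- `p12 < p34`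
      have h1 := eventually_mem hU hv hxU (tendsto_torus v (Set.Iio 1))
      have h2 : ∀ᶠ s in 𝓝[<] (1 : ℝ), 0 < s := nhdsWithin_le_nhds (Ioi_mem_nhds one_pos)
      have h3 : ∀ᶠ s in 𝓝[<] (1 : ℝ), s < 1 := self_mem_nhdsWithin
      obtain ⟨s, ⟨hs1, hs2⟩, hs3, hs4⟩ := (h1.and (h2.and h3)).exists
      refine exists_good hs1 (torus_nonneg hs3 hn') ?_ (by rw [pl_torus, hp, mul_zero]) hU hs2
      rw [key]
      have h0 := hn' 0
      have : s * v 0 ≤ v 0 := by nlinarith
      have h4 : 0 < v 5 - s * v 0 := by linarith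
      have h5 : 0 < 1 - s := by linarith
      positivity
    · have h1 := eventually_mem hU hv hxU (tendsto_torus v (Set.Ioi 1))
      have h3 : ∀ᶠ s in 𝓝[>] (1 : ℝ), 1 < s := self_mem_nhdsWithin
      obtain ⟨s, ⟨hs1, hs2⟩, hs3⟩ := (h1.and h3).exists
      refine exists_good hs1 (torus_nonneg (by linarith) hn') ?_
        (by rw [pl_torus, hp, mul_zero]) hU hs2
      rw [key]
      have h0 := hn' 0
      have : v 0 ≤ s * v 0 := by nlinarith
      have h4 : 0 < s * v 0 - v 5 := by linarith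
      have h5 : 0 < s - 1 := by linarith
      nlinarith [mul_pos h4 h5]

theorem isClosed_Gr : IsClosed Gr := by
  rw [← isOpen_compl_iff]
  have : Grᶜ = {x : P5 | 0 < (fun v => pl v ^ 2) x.rep} := by
    ext x
    change ¬ (pl x.rep = 0) ↔ 0 < pl x.rep ^ 2
    exact ⟨fun h => by positivity, fun h h0 => by rw [h0] at h; norm_num at h⟩
  rw [this]
  refine isOpen_of_pos (fun v => pl v ^ 2) (by unfold pl; fun_prop) ?_
  intro a ha v
  simp only [pl_smul, mul_pow]
  exact mul_pos_iff_of_pos_left (by positivity)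

theorem isClosed_polytope : IsClosed (polytope hh) := by
  have : polytope hh = ⋂ i, ⋂ j, {x : P5 | 0 < (fun v => - ((forms hh i ⬝ᵥ v) *
      (forms hh j ⬝ᵥ v))) x.rep}ᶜ := by
    ext x
    simp only [polytope, Set.mem_ofPred_eq, Set.mem_iInter, Set.mem_compl_iff, not_lt,
      Left.neg_nonpos_iff]
  rw [this]
  refine isClosed_iInter fun i => isClosed_iInter fun j => ?_
  rw [isClosed_compl_iff]
  refine isOpen_of_pos (fun v => - ((forms hh i ⬝ᵥ v) * (forms hh j ⬝ᵥ v)))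
    (by unfold dotProduct; fun_prop) ?_
  intro a ha v
  simp only [dotProduct_smul]
  have h1 : -(a • (forms hh i ⬝ᵥ v) * a • (forms hh j ⬝ᵥ v))
      = a ^ 2 * (-((forms hh i ⬝ᵥ v) * (forms hh j ⬝ᵥ v))) := by
    simp only [smul_eq_mul]
    ring
  rw [h1]
  exact mul_pos_iff_of_pos_left (by positivity)

theorem isClosed_S : IsClosed S := isClosed_polytope.inter isClosed_Gr

theorem relInterior_subset : relInterior Gr S ⊆ S := by
  rintro x ⟨hx, U, -, hxU, hU⟩
  exact hU ⟨hxU, hx⟩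

theorem regular_S : S = closure (relInterior Gr S) := by
  apply Set.Subset.antisymm
  · intro x hx
    rw [mem_closure_iff]
    intro U hU hxU
    obtain ⟨w, hw, hwU⟩ := exists_good_of_mem hx hU hxU
    exact ⟨_, hwU, hw.mem_relInterior⟩
  · exact closure_minimal relInterior_subset isClosed_S

/-! ### The boundary -/

/-- A curve leaving `S`. -/
theorem not_mem_relInterior {v : Fin 6 → ℝ} (hv : v ≠ 0) (y : ℝ → Fin 6 → ℝ)
    (hy : Tendsto y (𝓝[>] 0) (𝓝 v)) (hp : ∀ t, pl (y t) = 0)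
    (hneg : ∀ t, 0 < t → ∃ i j, (forms hh i ⬝ᵥ y t) * (forms hh j ⬝ᵥ y t) < 0) :
    Projectivization.mk ℝ v hv ∉ relInterior Gr S := by
  rintro ⟨-, U, hU, hvU, hUS⟩
  have h1 := eventually_mem hU hv hvU hy
  have h2 : ∀ᶠ t in 𝓝[>] (0 : ℝ), 0 < t := self_mem_nhdsWithin
  obtain ⟨t, ⟨ht1, ht2⟩, ht3⟩ := (h1.and h2).exists
  have h3 := hUS ⟨ht2, (mem_Gr_mk _ _).2 (hp t)⟩
  obtain ⟨i, j, hij⟩ := hneg t ht3
  have h4 := ((mem_S_mk _ _).1 h3).1 i j
  linarith

/-- The positive points of the hyperplane section `l_i = 0`. -/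
def FacetPoint (i : Fin 6 ⊕ Fin 1) (v : Fin 6 → ℝ) : Prop :=
  pl v = 0 ∧ forms hh i ⬝ᵥ v = 0 ∧ ∀ j, j ≠ i → 0 < forms hh j ⬝ᵥ v

theorem FacetPoint.ne_zero {i : Fin 6 ⊕ Fin 1} {v : Fin 6 → ℝ} (h : FacetPoint i v) : v ≠ 0 := by
  rintro rfl
  by_cases hi : i = Sum.inl 0
  · have := h.2.2 (Sum.inl 1) (by rw [hi]; decide)
    simp at this
  · have := h.2.2 (Sum.inl 0) (Ne.symm hi)
    simp at this

theorem FacetPoint.mem_S {i : Fin 6 ⊕ Fin 1} {v : Fin 6 → ℝ} (h : FacetPoint i v) :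
    Projectivization.mk ℝ v h.ne_zero ∈ S := by
  refine mem_S_of_nonneg _ _ (fun j => ?_) h.1
  by_cases hj : j = i
  · rw [hj, h.2.1]
  · exact (h.2.2 j hj).le

theorem tendsto_vec {y : ℝ → Fin 6 → ℝ} {v : Fin 6 → ℝ} (h : ∀ i, Continuous fun t => y t i)
    (h0 : y 0 = v) : Tendsto y (𝓝[>] 0) (𝓝 v) := by
  have h2 := (continuous_pi h).tendsto 0
  rw [h0] at h2
  exact h2.mono_left nhdsWithin_le_nhds

/-- Positive points of the five hyperplane sections are boundary points. -/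
theorem FacetPoint.mem_boundary (i : Fin 4 ⊕ Fin 1) {v : Fin 6 → ℝ}
    (h : FacetPoint (facetIndex i) v) :
    Projectivization.mk ℝ v h.ne_zero ∈ S \ relInterior Gr S := by
  refine ⟨h.mem_S, ?_⟩
  obtain ⟨hp, h0, hpos⟩ := h
  have g4 : 0 < v 4 := by
    have haux : ∀ i : Fin 4 ⊕ Fin 1, Sum.inl 4 ≠ facetIndex i := by decide
    have := hpos (Sum.inl 4) (haux i)
    rwa [fv_inl] at this
  unfold pl at hp
  have key : v 1 = (v 0 * v 5 + v 3 * v 2) / v 4 := by
    field_simp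
    linarith
  rcases i with i | i
  · fin_cases i
    · -- `p12 = 0`
      have e0 : v 0 = 0 := by simpa [facetIndex, fv_inl] using h0
      have e5 : 0 < v 5 := by
        have := hpos (Sum.inl 5) (by decide)
        rwa [fv_inl] at this
      refine not_mem_relInterior _
        (fun t => ![-t, (-t * v 5 + v 3 * v 2) / v 4, v 2, v 3, v 4, v 5]) ?_ ?_ ?_
      · refine tendsto_vec (fun i => ?_) ?_
        · fin_cases i <;> simp <;> fun_prop
        · funext i
          fin_cases i <;> simp [e0, key]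
      · intro t
        simp only [pl]
        simp
        field_simp
        ring
      · intro t ht
        refine ⟨Sum.inl 0, Sum.inl 5, ?_⟩
        rw [fv_inl, fv_inl]
        simp
        positivity
    · -- `p14 = 0`
      have e0 : v 3 = 0 := by simpa [facetIndex, fv_inl] using h0
      have e5 : 0 < v 5 := by
        have := hpos (Sum.inl 5) (by decide)
        rwa [fv_inl] at this
      refine not_mem_relInterior _
        (fun t => ![v 0, (v 0 * v 5 + -t * v 2) / v 4, v 2, -t, v 4, v 5]) ?_ ?_ ?_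
      · refine tendsto_vec (fun i => ?_) ?_
        · fin_cases i <;> simp <;> fun_prop
        · funext i
          fin_cases i <;> simp [e0, key]
      · intro t
        simp only [pl]
        simp
        field_simp
        ring
      · intro t ht
        refine ⟨Sum.inl 3, Sum.inl 5, ?_⟩
        rw [fv_inl, fv_inl]
        simp
        positivity
    · -- `p23 = 0`
      have e0 : v 2 = 0 := by simpa [facetIndex, fv_inl] using h0
      have e5 : 0 < v 5 := by
        have := hpos (Sum.inl 5) (by decide)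
        rwa [fv_inl] at this
      refine not_mem_relInterior _
        (fun t => ![v 0, (v 0 * v 5 + v 3 * -t) / v 4, -t, v 3, v 4, v 5]) ?_ ?_ ?_
      · refine tendsto_vec (fun i => ?_) ?_
        · fin_cases i <;> simp <;> fun_prop
        · funext i
          fin_cases i <;> simp [e0, key]
      · intro t
        simp only [pl]
        simp
        field_simp
        ring
      · intro t ht
        refine ⟨Sum.inl 2, Sum.inl 5, ?_⟩
        rw [fv_inl, fv_inl]
        simp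
        positivity
    · -- `p34 = 0`
      have e0 : v 5 = 0 := by simpa [facetIndex, fv_inl] using h0
      have e5 : 0 < v 0 := by
        have := hpos (Sum.inl 0) (by decide)
        rwa [fv_inl] at this
      refine not_mem_relInterior _
        (fun t => ![v 0, (v 0 * -t + v 3 * v 2) / v 4, v 2, v 3, v 4, -t]) ?_ ?_ ?_
      · refine tendsto_vec (fun i => ?_) ?_
        · fin_cases i <;> simp <;> fun_prop
        · funext i
          fin_cases i <;> simp [e0, key]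
      · intro t
        simp only [pl]
        simp
        field_simp
        ring
      · intro t ht
        refine ⟨Sum.inl 5, Sum.inl 0, ?_⟩
        rw [fv_inl, fv_inl]
        simp
        positivity
  · -- `h = 0`
    have e0 : 3 * v 0 - 5 * v 1 - 4 * v 2 - 4 * v 3 - 5 * v 4 + 3 * v 5 = 0 := by
      have h1 : forms hh (Sum.inr i) ⬝ᵥ v = 0 := h0
      rwa [fv_inr] at h1
    have g0 : 0 < v 0 := by
      have := hpos (Sum.inl 0) (by simp [facetIndex])
      rwa [fv_inl] at this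
    have g3 : 0 < v 3 := by
      have := hpos (Sum.inl 3) (by simp [facetIndex])
      rwa [fv_inl] at this
    refine not_mem_relInterior _
      (fun t => ![v 0, (v 0 * v 5 + v 3 * (v 2 + t)) / v 4, v 2 + t, v 3, v 4, v 5]) ?_ ?_ ?_
    · refine tendsto_vec (fun i => ?_) ?_
      · fin_cases i <;> simp <;> fun_prop
      · funext i
        fin_cases i <;> simp [key]
    · intro t
      simp only [pl]
      simp
      field_simp
      ring
    · intro t ht
      refine ⟨Sum.inl 0, Sum.inr 0, ?_⟩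
      rw [fv_inl, fv_inr]
      simp
      have h5 : (v 0 * v 5 + v 3 * (v 2 + t)) / v 4 = v 1 + v 3 * t / v 4 := by
        rw [key]
        field_simp
        ring
      rw [h5]
      have h6 : 0 < v 3 * t / v 4 := by positivity
      apply mul_neg_of_pos_of_neg g0
      linarith

/-- Points of `S` off the five hyperplane sections are interior points. -/
theorem mem_relInterior_of_ne {x : P5} (hx : x ∈ S)
    (h : ∀ i : Fin 4 ⊕ Fin 1, forms hh (facetIndex i) ⬝ᵥ x.rep ≠ 0) : x ∈ relInterior Gr S := by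
  obtain ⟨v, hv, rfl, hn, hp⟩ := exists_rep hx
  have h' : ∀ i : Fin 4 ⊕ Fin 1, 0 < forms hh (facetIndex i) ⬝ᵥ v := fun i =>
    lt_of_le_of_ne (hn _) (fun h0 => h i ((dot_rep _ _ _).2 h0.symm))
  have g0 : 0 < v 0 := by simpa [facetIndex, fv_inl] using h' (Sum.inl 0)
  have g3 : 0 < v 3 := by simpa [facetIndex, fv_inl] using h' (Sum.inl 1)
  have g2 : 0 < v 2 := by simpa [facetIndex, fv_inl] using h' (Sum.inl 2)
  have g5 : 0 < v 5 := by simpa [facetIndex, fv_inl] using h' (Sum.inl 3)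
  have n1 : 0 ≤ v 1 := by simpa [fv_inl] using hn (Sum.inl 1)
  have n4 : 0 ≤ v 4 := by simpa [fv_inl] using hn (Sum.inl 4)
  have hprod : 0 < v 1 * v 4 := by
    unfold pl at hp
    have : v 1 * v 4 = v 0 * v 5 + v 3 * v 2 := by linarith
    rw [this]
    positivity
  have g1 : 0 < v 1 := lt_of_le_of_ne n1 (fun h0 => by rw [← h0] at hprod; simp at hprod)
  have g4 : 0 < v 4 := lt_of_le_of_ne n4 (fun h0 => by rw [← h0] at hprod; simp at hprod)
  have hgood : Good v := by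
    refine ⟨hp, ?_⟩
    rintro (i | i)
    · rw [fv_inl]
      fin_cases i <;> assumption
    · exact h' (Sum.inr i)
  exact hgood.mem_relInterior

/-! ### The Zariski topology -/

/-- The Plücker polynomial. -/
noncomputable def plP : MvPolynomial (Fin 6) ℝ := X 0 * X 5 - X 1 * X 4 + X 3 * X 2

/-- A linear form as a polynomial. -/
noncomputable def linP (c : Fin 6 → ℝ) : MvPolynomial (Fin 6) ℝ := ∑ i, C (c i) * X i

theorem eval_plP (v : Fin 6 → ℝ) : eval v plP = pl v := by simp [plP, pl]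

theorem eval_linP (c v : Fin 6 → ℝ) : eval v (linP c) = c ⬝ᵥ v := by simp [linP, dotProduct]

theorem hom_plP : plP.IsHomogeneous 2 :=
  (((isHomogeneous_X _ _).mul (isHomogeneous_X _ _)).sub
    ((isHomogeneous_X _ _).mul (isHomogeneous_X _ _))).add
    ((isHomogeneous_X _ _).mul (isHomogeneous_X _ _))

theorem hom_linP (c : Fin 6 → ℝ) : (linP c).IsHomogeneous 1 := by
  refine IsHomogeneous.sum _ _ _ fun i _ => ?_
  simpa using (isHomogeneous_C (Fin 6) (c i)).mul (isHomogeneous_X ℝ i)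

/-- The hyperplane section `c = 0` of the Grassmannian. -/
def sec (c : Fin 6 → ℝ) : Set P5 := {x | pl x.rep = 0 ∧ c ⬝ᵥ x.rep = 0}

theorem mem_sec_mk (c v : Fin 6 → ℝ) (hv : v ≠ 0) :
    Projectivization.mk ℝ v hv ∈ sec c ↔ pl v = 0 ∧ c ⬝ᵥ v = 0 := by
  change (pl _ = 0 ∧ _) ↔ _
  rw [dot_rep, ← mem_Gr_mk v hv]
  rfl

theorem zc_sec (c : Fin 6 → ℝ) : IsZariskiClosed (sec c) := by
  refine ⟨{plP, linP c}, ?_, ?_⟩
  · rintro f (rfl | rfl)
    · exact ⟨2, hom_plP⟩
    · exact ⟨1, hom_linP c⟩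
  · ext x
    simp [sec, eval_plP, eval_linP]

theorem mem_zc_mk {F : Set (MvPolynomial (Fin 6) ℝ)} (hF : ∀ f ∈ F, ∃ d, f.IsHomogeneous d)
    (v : Fin 6 → ℝ) (hv : v ≠ 0) :
    Projectivization.mk ℝ v hv ∈ {x : P5 | ∀ f ∈ F, eval x.rep f = 0} ↔
      ∀ f ∈ F, eval v f = 0 := by
  refine forall_congr' fun f => forall_congr' fun hf => ?_
  obtain ⟨d, hd⟩ := hF f hf
  exact eval_rep hd v hv

/-- The image of a point under a polynomial map. -/
noncomputable def ev (φ : Fin 6 → MvPolynomial (Fin 5) ℝ) (τ : Fin 5 → ℝ) : Fin 6 → ℝ :=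
  fun i => eval τ (φ i)

theorem eval_bind (φ : Fin 6 → MvPolynomial (Fin 5) ℝ) (τ : Fin 5 → ℝ)
    (f : MvPolynomial (Fin 6) ℝ) : eval τ (bind₁ φ f) = eval (ev φ τ) f :=
  MvPolynomial.eval₂Hom_bind₁ (RingHom.id ℝ) τ φ f

/-- A polynomial parametrisation of the section `c = 0`, meeting the open set `W`. -/
def HasParam (c : Fin 6 → ℝ) (W : Set (Fin 6 → ℝ)) : Prop :=
  ∃ φ : Fin 6 → MvPolynomial (Fin 5) ℝ, (∀ τ, pl (ev φ τ) = 0 ∧ c ⬝ᵥ ev φ τ = 0) ∧
    (∀ v, pl v = 0 → c ⬝ᵥ v = 0 → ∃ τ, v = ev φ τ) ∧ ∃ τ, ev φ τ ∈ W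

theorem continuous_ev (φ : Fin 6 → MvPolynomial (Fin 5) ℝ) : Continuous (ev φ) :=
  continuous_pi fun i => MvPolynomial.continuous_eval (φ i)

/-- A polynomial in five variables which vanishes on a nonempty open set is zero. -/
theorem eq_zero_of_open {W : Set (Fin 5 → ℝ)} (hW : IsOpen W) {τ : Fin 5 → ℝ} (hτ : τ ∈ W)
    {g : MvPolynomial (Fin 5) ℝ} (hg : ∀ σ ∈ W, eval σ g = 0) : g = 0 := by
  obtain ⟨ε, hε, hball⟩ := Metric.isOpen_iff.1 hW τ hτ
  refine MvPolynomial.funext_set (fun i => Set.Ioo (τ i - ε) (τ i + ε))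
    (fun i => Set.Ioo_infinite (by linarith)) fun σ hσ => ?_
  rw [map_zero]
  apply hg
  apply hball
  rw [Metric.mem_ball, dist_pi_lt_iff hε]
  intro i
  have := hσ i (Set.mem_univ i)
  rw [Real.dist_eq, abs_lt]
  constructor <;> linarith [this.1, this.2]

theorem bind_eq_zero {φ : Fin 6 → MvPolynomial (Fin 5) ℝ} {W : Set (Fin 6 → ℝ)} (hW : IsOpen W)
    {τ : Fin 5 → ℝ} (hτ : ev φ τ ∈ W) {f : MvPolynomial (Fin 6) ℝ}
    (hf : ∀ τ, ev φ τ ∈ W → eval (ev φ τ) f = 0) : bind₁ φ f = 0 := by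
  refine eq_zero_of_open (hW.preimage (continuous_ev φ)) hτ fun σ hσ => ?_
  rw [eval_bind]
  exact hf σ hσ

theorem irred_sec {c : Fin 6 → ℝ} {W : Set (Fin 6 → ℝ)} (hW : IsOpen W) (h0 : (0 : Fin 6 → ℝ) ∉ W)
    (h : HasParam c W) : IsIrred (sec c) := by
  obtain ⟨φ, h1, h2, τ₀, h3⟩ := h
  refine ⟨zc_sec c, ?_, ?_⟩
  · have hne : ev φ τ₀ ≠ 0 := fun h => h0 (h ▸ h3)
    exact ⟨Projectivization.mk ℝ _ hne, (mem_sec_mk c _ hne).2 (h1 τ₀)⟩
  · rintro A B ⟨F, hF, rfl⟩ ⟨G, hG, rfl⟩ hAB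
    by_contra hcon
    push Not at hcon
    obtain ⟨hA, hB⟩ := hcon
    obtain ⟨x, hx, hxA⟩ := Set.not_subset.1 hA
    obtain ⟨y, hy, hyB⟩ := Set.not_subset.1 hB
    simp only [Set.mem_ofPred_eq, not_forall] at hxA hyB
    obtain ⟨f, hf, hfx⟩ := hxA
    obtain ⟨g, hg, hgy⟩ := hyB
    have hbf : bind₁ φ f ≠ 0 := by
      intro hcon
      obtain ⟨τ, hτ⟩ := h2 _ hx.1 hx.2
      apply hfx
      rw [hτ, ← eval_bind, hcon, map_zero]
    have hbg : bind₁ φ g ≠ 0 := by
      intro hcon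
      obtain ⟨τ, hτ⟩ := h2 _ hy.1 hy.2
      apply hgy
      rw [hτ, ← eval_bind, hcon, map_zero]
    have hprod : bind₁ φ (f * g) ≠ 0 := by
      rw [map_mul]
      exact mul_ne_zero hbf hbg
    apply hprod
    refine bind_eq_zero hW h3 fun τ hτ => ?_
    have hne : ev φ τ ≠ 0 := fun h => h0 (h ▸ hτ)
    have hmem := hAB ((mem_sec_mk c _ hne).2 (h1 τ))
    rw [map_mul]
    rcases hmem with hm | hm
    · rw [(mem_zc_mk hF _ hne).1 hm f hf, zero_mul]
    · rw [(mem_zc_mk hG _ hne).1 hm g hg, mul_zero]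

/-- Zariski density of the points in an open set. -/
theorem sec_subset {c : Fin 6 → ℝ} {W : Set (Fin 6 → ℝ)} (hW : IsOpen W)
    (h0 : (0 : Fin 6 → ℝ) ∉ W) (h : HasParam c W) {Z : Set P5} (hZ : IsZariskiClosed Z)
    (hWZ : ∀ (v : Fin 6 → ℝ) (hv : v ≠ 0), pl v = 0 → c ⬝ᵥ v = 0 → v ∈ W →
      Projectivization.mk ℝ v hv ∈ Z) : sec c ⊆ Z := by
  obtain ⟨φ, h1, h2, τ₀, h3⟩ := h
  obtain ⟨F, hF, rfl⟩ := hZ
  rintro x hx f hf
  obtain ⟨τ, hτ⟩ := h2 _ hx.1 hx.2
  have hz : bind₁ φ f = 0 := by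
    refine bind_eq_zero hW h3 fun τ hτ => ?_
    have hne : ev φ τ ≠ 0 := fun h => h0 (h ▸ hτ)
    exact (mem_zc_mk hF _ hne).1 (hWZ _ hne (h1 τ).1 (h1 τ).2 hτ) f hf
  rw [hτ, ← eval_bind, hz, map_zero]

/-- Rank one `2 × 2` matrices. -/
theorem rank_one (a b c d : ℝ) (h : a * d = b * c) :
    ∃ s t u v : ℝ, a = s * u ∧ b = s * v ∧ c = t * u ∧ d = t * v := by
  by_cases ha : a = 0
  · by_cases hb : b = 0
    · exact ⟨0, 1, c, d, by simp [ha], by simp [hb], by simp, by simp⟩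
    · have hc : c = 0 := by
        rw [ha, zero_mul] at h
        exact (mul_eq_zero.1 h.symm).resolve_left hb
      refine ⟨b, d, 0, 1, by simp [ha], by simp, by simp [hc], by simp⟩
  · refine ⟨a, c, 1, b / a, by simp, by field_simp, by simp, ?_⟩
    field_simp
    linarith

/-- The open set of the points at which all forms but the `i`-th are positive. -/
def posSet (i : Fin 6 ⊕ Fin 1) : Set (Fin 6 → ℝ) := {v | ∀ j, j ≠ i → 0 < forms hh j ⬝ᵥ v}

theorem isOpen_posSet (i : Fin 6 ⊕ Fin 1) : IsOpen (posSet i) := by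
  simp only [posSet, Set.ofPred_forall]
  refine isOpen_iInter_of_finite fun j => isOpen_iInter_of_finite fun _ => ?_
  exact isOpen_lt continuous_const (by unfold dotProduct; fun_prop)

theorem zero_notMem_posSet (i : Fin 6 ⊕ Fin 1) : (0 : Fin 6 → ℝ) ∉ posSet i := by
  intro h
  by_cases hi : i = Sum.inl 0
  · have := h (Sum.inl 1) (by rw [hi]; decide)
    simp at this
  · have := h (Sum.inl 0) (Ne.symm hi)
    simp at this

theorem mem_posSet_of {i : Fin 6 ⊕ Fin 1} {v : Fin 6 → ℝ}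
    (h : ∀ j : Fin 6, Sum.inl j ≠ i → 0 < v j)
    (h2 : Sum.inr 0 ≠ i → 0 < 3 * v 0 - 5 * v 1 - 4 * v 2 - 4 * v 3 - 5 * v 4 + 3 * v 5) :
    v ∈ posSet i := by
  rintro (j | j) hj
  · rw [fv_inl]
    exact h j hj
  · rw [fv_inr]
    have : j = 0 := Subsingleton.elim _ _
    subst this
    exact h2 hj

theorem hasParam (i : Fin 4 ⊕ Fin 1) : HasParam (forms hh (facetIndex i))
    (posSet (facetIndex i)) := by
  rcases i with i | i
  · fin_cases i
    · -- `p12 = 0`
      refine ⟨![0, X 0 * X 2, X 1 * X 2, X 0 * X 3, X 1 * X 3, X 4], ?_, ?_, ?_⟩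
      · intro τ
        constructor
        · simp [pl, ev]
          ring
        · simp [facetIndex, fv_inl, ev]
      · intro v hp h0
        have e0 : v 0 = 0 := by simpa [facetIndex, fv_inl] using h0
        unfold pl at hp
        rw [e0] at hp
        obtain ⟨s, t, a, b, h1, h2, h3, h4⟩ := rank_one (v 1) (v 3) (v 2) (v 4) (by linarith)
        refine ⟨![s, t, a, b, v 5], ?_⟩
        funext j
        fin_cases j <;> simp [ev, e0, h1, h2, h3, h4]
      · refine ⟨![1, 1, 1, 1, 100], mem_posSet_of ?_ ?_⟩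
        · intro j hj
          fin_cases j <;> simp [ev, facetIndex] at hj ⊢
        · intro _
          simp [ev]
          norm_num
    · -- `p14 = 0`
      refine ⟨![X 0 * X 2, X 0 * X 3, X 4, 0, X 1 * X 2, X 1 * X 3], ?_, ?_, ?_⟩
      · intro τ
        constructor
        · simp [pl, ev]
          ring
        · simp [facetIndex, fv_inl, ev]
      · intro v hp h0
        have e0 : v 3 = 0 := by simpa [facetIndex, fv_inl] using h0
        unfold pl at hp
        rw [e0] at hp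
        obtain ⟨s, t, a, b, h1, h2, h3, h4⟩ := rank_one (v 0) (v 1) (v 4) (v 5) (by linarith)
        refine ⟨![s, t, a, b, v 2], ?_⟩
        funext j
        fin_cases j <;> simp [ev, e0, h1, h2, h3, h4]
      · refine ⟨![1, 1 / 10, 1, 1 / 10, 1 / 10], mem_posSet_of ?_ ?_⟩
        · intro j hj
          fin_cases j <;> simp [ev, facetIndex] at hj ⊢
        · intro _
          simp [ev]
          norm_num
    · -- `p23 = 0`
      refine ⟨![X 0 * X 2, X 0 * X 3, 0, X 4, X 1 * X 2, X 1 * X 3], ?_, ?_, ?_⟩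
      · intro τ
        constructor
        · simp [pl, ev]
          ring
        · simp [facetIndex, fv_inl, ev]
      · intro v hp h0
        have e0 : v 2 = 0 := by simpa [facetIndex, fv_inl] using h0
        unfold pl at hp
        rw [e0] at hp
        obtain ⟨s, t, a, b, h1, h2, h3, h4⟩ := rank_one (v 0) (v 1) (v 4) (v 5) (by linarith)
        refine ⟨![s, t, a, b, v 3], ?_⟩
        funext j
        fin_cases j <;> simp [ev, e0, h1, h2, h3, h4]
      · refine ⟨![1, 1 / 10, 1, 1 / 10, 1 / 10], mem_posSet_of ?_ ?_⟩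
        · intro j hj
          fin_cases j <;> simp [ev, facetIndex] at hj ⊢
        · intro _
          simp [ev]
          norm_num
    · -- `p34 = 0`
      refine ⟨![X 4, X 0 * X 2, X 1 * X 2, X 0 * X 3, X 1 * X 3, 0], ?_, ?_, ?_⟩
      · intro τ
        constructor
        · simp [pl, ev]
          ring
        · simp [facetIndex, fv_inl, ev]
      · intro v hp h0
        have e0 : v 5 = 0 := by simpa [facetIndex, fv_inl] using h0
        unfold pl at hp
        rw [e0] at hp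
        obtain ⟨s, t, a, b, h1, h2, h3, h4⟩ := rank_one (v 1) (v 3) (v 2) (v 4) (by linarith)
        refine ⟨![s, t, a, b, v 0], ?_⟩
        funext j
        fin_cases j <;> simp [ev, e0, h1, h2, h3, h4]
      · refine ⟨![1, 1, 1, 1, 100], mem_posSet_of ?_ ?_⟩
        · intro j hj
          fin_cases j <;> simp [ev, facetIndex] at hj ⊢
        · intro _
          simp [ev]
          norm_num
  · -- `h = 0`
    refine ⟨![3 * X 4, 5 * X 4 + 3 * (X 0 * X 2), -4 * X 4 + 3 * (X 1 * X 2),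
      -4 * X 4 + 3 * (X 0 * X 3), 5 * X 4 + 3 * (X 1 * X 3),
      3 * X 4 + 5 * (X 0 * X 2) + 4 * (X 0 * X 3) + 4 * (X 1 * X 2) + 5 * (X 1 * X 3)],
      ?_, ?_, ?_⟩
    · intro τ
      constructor
      · simp [pl, ev]
        ring
      · have := fv_inr i (ev ![3 * X 4, 5 * X 4 + 3 * (X 0 * X 2), -4 * X 4 + 3 * (X 1 * X 2),
          -4 * X 4 + 3 * (X 0 * X 3), 5 * X 4 + 3 * (X 1 * X 3),
          3 * X 4 + 5 * (X 0 * X 2) + 4 * (X 0 * X 3) + 4 * (X 1 * X 2) + 5 * (X 1 * X 3)] τ)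
        change forms hh (Sum.inr i) ⬝ᵥ _ = 0
        rw [this]
        simp [ev]
        ring
    · intro v hp h0
      have e0 : 3 * v 0 - 5 * v 1 - 4 * v 2 - 4 * v 3 - 5 * v 4 + 3 * v 5 = 0 := by
        have h1 : forms hh (Sum.inr i) ⬝ᵥ v = 0 := h0
        rwa [fv_inr] at h1
      unfold pl at hp
      obtain ⟨s, t, a, b, h1, h2, h3, h4⟩ := rank_one ((v 1 - 5 * (v 0 / 3)) / 3)
        ((v 3 + 4 * (v 0 / 3)) / 3) ((v 2 + 4 * (v 0 / 3)) / 3) ((v 4 - 5 * (v 0 / 3)) / 3) (by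
          have e5 : v 5 = (- 3 * v 0 + 5 * v 1 + 4 * v 2 + 4 * v 3 + 5 * v 4) / 3 := by linarith
          rw [e5] at hp
          linear_combination (-1 / 9) * hp)
      refine ⟨![s, t, a, b, v 0 / 3], ?_⟩
      have g1 : v 1 = 5 * (v 0 / 3) + 3 * (s * a) := by linarith
      have g3 : v 3 = -(4 * (v 0 / 3)) + 3 * (s * b) := by linarith
      have g2 : v 2 = -(4 * (v 0 / 3)) + 3 * (t * a) := by linarith
      have g4 : v 4 = 5 * (v 0 / 3) + 3 * (t * b) := by linarith
      have g5 : v 5 = 3 * (v 0 / 3) + 5 * (s * a) + 4 * (s * b) + 4 * (t * a) + 5 * (t * b) := by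
        linarith
      funext j
      fin_cases j
      · simp [ev]
        ring
      · simpa [ev] using g1
      · simpa [ev] using g2
      · simpa [ev] using g3
      · simpa [ev] using g4
      · simpa [ev] using g5
    · refine ⟨![1, 1, 2, 2, 1], mem_posSet_of ?_ ?_⟩
      · intro j hj
        fin_cases j <;> simp [ev] <;> norm_num
      · intro h
        exact absurd (by rw [Subsingleton.elim i 0]; rfl) h

/-! ### Components and facets -/

/-- The five hyperplane sections. -/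
def comp (i : Fin 4 ⊕ Fin 1) : Set P5 := sec (forms hh (facetIndex i))

theorem facetIndex_injective : Function.Injective (facetIndex : Fin 4 ⊕ Fin 1 → Fin 6 ⊕ Fin 1) := by
  decide

theorem irred_comp (i : Fin 4 ⊕ Fin 1) : IsIrred (comp i) :=
  irred_sec (isOpen_posSet _) (zero_notMem_posSet _) (hasParam i)

theorem subset_zariskiClosure (A : Set P5) : A ⊆ zariskiClosure A :=
  fun _ hx _ hZ => hZ.2 hx

theorem comp_subset (i : Fin 4 ⊕ Fin 1) : comp i ⊆ zariskiClosure (S \ relInterior Gr S) := by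
  rintro x hx Z ⟨hZ, hZS⟩
  refine sec_subset (isOpen_posSet _) (zero_notMem_posSet _) (hasParam i) hZ ?_ hx
  intro v hv hp h0 hW
  apply hZS
  exact FacetPoint.mem_boundary i ⟨hp, h0, hW⟩

/-- The five facet points. -/
theorem exists_facetPoint (i : Fin 4 ⊕ Fin 1) : ∃ v, FacetPoint (facetIndex i) v := by
  obtain ⟨φ, h1, -, τ, h3⟩ := hasParam i
  exact ⟨ev φ τ, (h1 τ).1, (h1 τ).2, h3⟩

theorem zc_of_hom {f : MvPolynomial (Fin 6) ℝ} {d : ℕ} (hf : f.IsHomogeneous d) :
    IsZariskiClosed {x : P5 | eval x.rep f = 0} :=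
  ⟨{f}, by rintro g rfl; exact ⟨d, hf⟩, by ext x; simp⟩

theorem exists_of_prod {C : Set P5} (hC : IsIrred C) {ι : Type*} (s : Finset ι)
    (g : ι → MvPolynomial (Fin 6) ℝ) (hg : ∀ i, ∃ d, (g i).IsHomogeneous d)
    (h : ∀ x ∈ C, eval x.rep (∏ i ∈ s, g i) = 0) : ∃ i ∈ s, ∀ x ∈ C, eval x.rep (g i) = 0 := by
  classical
  induction s using Finset.induction_on with
  | empty =>
    obtain ⟨x, hx⟩ := hC.2.1
    have := h x hx
    simp at this
  | insert a s ha ih =>
    choose d hd using hg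
    have hprod : (∏ i ∈ s, g i).IsHomogeneous (∑ i ∈ s, d i) :=
      IsHomogeneous.prod s g d fun i _ => hd i
    have hsub : C ⊆ {x : P5 | eval x.rep (g a) = 0} ∪ {x : P5 | eval x.rep (∏ i ∈ s, g i) = 0} := by
      intro x hx
      have h1 := h x hx
      rw [Finset.prod_insert ha, map_mul, mul_eq_zero] at h1
      exact h1
    rcases hC.2.2 _ _ (zc_of_hom (hd a)) (zc_of_hom hprod) hsub with h1 | h1
    · exact ⟨a, Finset.mem_insert_self _ _, h1⟩
    · obtain ⟨i, hi, h2⟩ := ih h1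
      exact ⟨i, Finset.mem_insert_of_mem hi, h2⟩

/-- The product of the five facet forms. -/
noncomputable def prodP : MvPolynomial (Fin 6) ℝ :=
  ∏ i : Fin 4 ⊕ Fin 1, linP (forms hh (facetIndex i))

theorem closure_subset : zariskiClosure (S \ relInterior Gr S) ⊆
    {x : P5 | pl x.rep = 0 ∧ eval x.rep prodP = 0} := by
  intro x hx
  refine hx _ ⟨?_, ?_⟩
  · refine ⟨{plP, prodP}, ?_, ?_⟩
    · rintro f (rfl | rfl)
      · exact ⟨2, hom_plP⟩
      · exact ⟨_, IsHomogeneous.prod _ _ _ fun i _ => hom_linP _⟩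
    · ext x
      simp [eval_plP]
  · rintro y ⟨hy, hy2⟩
    refine ⟨hy.2, ?_⟩
    by_contra hcon
    apply hy2
    refine mem_relInterior_of_ne hy fun i hi => hcon ?_
    rw [prodP, map_prod]
    exact Finset.prod_eq_zero (Finset.mem_univ i) (by rw [eval_linP, hi])

theorem subset_comp {C : Set P5} (hC : IsIrred C)
    (h : C ⊆ zariskiClosure (S \ relInterior Gr S)) : ∃ i, C ⊆ comp i := by
  have h1 := h.trans closure_subset
  obtain ⟨i, -, hi⟩ := exists_of_prod hC Finset.univ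
    (fun i : Fin 4 ⊕ Fin 1 => linP (forms hh (facetIndex i))) (fun i => ⟨1, hom_linP _⟩)
    (fun x hx => (h1 hx).2)
  refine ⟨i, fun x hx => ⟨(h1 hx).1, ?_⟩⟩
  rw [← eval_linP]
  exact hi x hx

theorem eq_of_comp_subset {i j : Fin 4 ⊕ Fin 1} (h : comp i ⊆ comp j) : i = j := by
  by_contra hij
  obtain ⟨v, hv⟩ := exists_facetPoint i
  have h1 : Projectivization.mk ℝ v hv.ne_zero ∈ comp j := h ((mem_sec_mk _ _ _).2 ⟨hv.1, hv.2.1⟩)
  have h2 := ((mem_sec_mk _ _ _).1 h1).2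
  have h3 := hv.2.2 (facetIndex j) (fun h => hij (facetIndex_injective h).symm)
  exact h3.ne' h2

theorem components_eq : components (zariskiClosure (S \ relInterior Gr S)) = Set.range comp := by
  ext C
  constructor
  · intro hC
    obtain ⟨i, hi⟩ := subset_comp hC.1.1 hC.1.2
    exact ⟨i, Set.Subset.antisymm (hC.2 ⟨irred_comp i, comp_subset i⟩ hi) hi⟩
  · rintro ⟨i, rfl⟩
    refine ⟨⟨irred_comp i, comp_subset i⟩, ?_⟩
    rintro D ⟨hD, hDS⟩ hiD
    obtain ⟨j, hj⟩ := subset_comp hD hDS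
    have hij := eq_of_comp_subset (hiD.trans hj)
    subst hij
    exact hj

/-- The five facets. -/
def fac (i : Fin 4 ⊕ Fin 1) : Set P5 := comp i ∩ closure (relInterior (comp i) S)

theorem mem_fac (i : Fin 4 ⊕ Fin 1) {v : Fin 6 → ℝ} (h : FacetPoint (facetIndex i) v) :
    Projectivization.mk ℝ v h.ne_zero ∈ fac i := by
  have hc : Projectivization.mk ℝ v h.ne_zero ∈ comp i := (mem_sec_mk _ _ _).2 ⟨h.1, h.2.1⟩
  refine ⟨hc, subset_closure ⟨hc, _, isOpen_same (fun j => j ≠ facetIndex i),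
    mk_mem_same _ v _ h.2.2, ?_⟩⟩
  rintro x ⟨hx, hxc⟩
  refine ⟨fun j k => ?_, hxc.1⟩
  by_cases hj : j = facetIndex i
  · rw [hj, hxc.2, zero_mul]
  · by_cases hk : k = facetIndex i
    · rw [hk, hxc.2, mul_zero]
    · exact (hx j hj k hk).le

theorem isSimplePolytope_hh : IsSimplePolytope hh := by
  refine ⟨⟨![100, 1, 1, 1, 1, 100], ?_⟩, ⟨fun _ => 1, ?_⟩, ?_, ?_⟩
  · rintro (i | i)
    · rw [fv_inl]
      fin_cases i <;> simp
    · rw [fv_inr]
      simp
      norm_num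
  · intro v hv h
    have h' : ∀ i, 0 ≤ v i := fun i => by
      have := h (Sum.inl i)
      rwa [fv_inl] at this
    obtain ⟨j, hj⟩ := Function.ne_iff.1 hv
    have : (fun _ => (1 : ℝ)) ⬝ᵥ v = ∑ i, v i := by simp [dotProduct]
    rw [this]
    exact Finset.sum_pos' (fun i _ => h' i)
      ⟨j, Finset.mem_univ j, lt_of_le_of_ne (h' j) (Ne.symm hj)⟩
  · rintro (i | i)
    · have key : ∀ v : Fin 6 → ℝ, v i = 0 → (∀ j, j ≠ i → 0 < v j) →
          0 < 3 * v 0 - 5 * v 1 - 4 * v 2 - 4 * v 3 - 5 * v 4 + 3 * v 5 →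
          ∃ v : Fin 6 → ℝ, forms hh (Sum.inl i) ⬝ᵥ v = 0 ∧
            ∀ j, j ≠ Sum.inl i → 0 < forms hh j ⬝ᵥ v := by
        intro v h1 h2 h3
        refine ⟨v, by rw [fv_inl, h1], ?_⟩
        rintro (j | j) hj
        · rw [fv_inl]
          exact h2 j fun h => hj (by rw [h])
        · rw [fv_inr]
          exact h3
      fin_cases i
      · refine key ![0, 1, 1, 1, 1, 100] (by simp) ?_ (by simp; norm_num)
        intro j hj
        fin_cases j <;> simp at hj ⊢
      · refine key ![100, 0, 1, 1, 1, 100] (by simp) ?_ (by simp; norm_num)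
        intro j hj
        fin_cases j <;> simp at hj ⊢
      · refine key ![100, 1, 0, 1, 1, 100] (by simp) ?_ (by simp; norm_num)
        intro j hj
        fin_cases j <;> simp at hj ⊢
      · refine key ![100, 1, 1, 0, 1, 100] (by simp) ?_ (by simp; norm_num)
        intro j hj
        fin_cases j <;> simp at hj ⊢
      · refine key ![100, 1, 1, 1, 0, 100] (by simp) ?_ (by simp; norm_num)
        intro j hj
        fin_cases j <;> simp at hj ⊢
      · refine key ![100, 1, 1, 1, 1, 0] (by simp) ?_ (by simp; norm_num)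
        intro j hj
        fin_cases j <;> simp at hj ⊢
    · refine ⟨![3, 1, 1, 1, 1, 3], ?_, ?_⟩
      · rw [fv_inr]
        simp
        norm_num
      · rintro (j | j) hj
        · rw [fv_inl]
          fin_cases j <;> simp
        · exact absurd (by rw [Subsingleton.elim j i]) hj
  · intro s hs
    rw [Fintype.linearIndependent_iff]
    intro g hg
    classical
    set G : Fin 6 ⊕ Fin 1 → ℝ := fun k => if hk : k ∈ s then g ⟨k, hk⟩ else 0 with hG
    have hsum : ∑ k, G k • forms hh k = 0 := by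
      have h1 : ∑ k, G k • forms hh k = ∑ k ∈ s, G k • forms hh k :=
        (Finset.sum_subset (Finset.subset_univ s) (fun k _ hk => by simp [hG, hk])).symm
      rw [h1, ← Finset.sum_coe_sort, ← hg]
      exact Finset.sum_congr rfl fun i _ => by simp [hG]
    have hcoord : ∀ j : Fin 6, G (Sum.inl j) + G (Sum.inr 0) * hh 0 j = 0 := by
      intro j
      have h1 := congrFun hsum j
      rw [Finset.sum_apply, Fintype.sum_sum_type] at h1
      simpa [forms, Pi.single_apply] using h1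
    have hG0 : ∀ k, G k = 0 := by
      obtain ⟨k₀, hk₀⟩ : ∃ k, k ∉ s := by
        by_contra hcon
        push Not at hcon
        rw [Finset.eq_univ_iff_forall.2 hcon] at hs
        simp at hs
      have hk : G k₀ = 0 := by simp [hG, hk₀]
      have hr : G (Sum.inr 0) = 0 := by
        rcases k₀ with j | j
        · have h1 := hcoord j
          rw [hk, zero_add, mul_eq_zero] at h1
          refine h1.resolve_right ?_
          fin_cases j <;> simp [hh]
        · rwa [Subsingleton.elim j 0] at hk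
      rintro (j | j)
      · have h1 := hcoord j
        rwa [hr, zero_mul, add_zero] at h1
      · rwa [Subsingleton.elim j 0]
    intro i
    have h1 := hG0 i
    simpa [hG] using h1

theorem isPositivePolytope_S : IsPositivePolytope hh S where
  simple := isSimplePolytope_hh
  eq := rfl
  closed := isClosed_S
  regular := regular_S
  facets := by
    refine ⟨fac, ?_, ?_, ?_⟩
    · intro i j hij
      by_contra hne
      obtain ⟨v, hv⟩ := exists_facetPoint i
      have h1 := mem_fac i hv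
      rw [hij] at h1
      have h2 := ((mem_sec_mk _ _ _).1 h1.1).2
      have h3 := hv.2.2 (facetIndex j) (fun h => hne (facetIndex_injective h).symm)
      exact h3.ne' h2
    · rw [facets, components_eq, ← Set.range_comp]
      rfl
    · intro i
      obtain ⟨v, hv⟩ := exists_facetPoint i
      exact ⟨⟨_, mem_fac i hv⟩, fun x hx => hx.1.2⟩

theorem not_isPreconnected_S : ¬ IsPreconnected S := by
  intro h
  have hU : ∀ a b : Fin 6, IsOpen {x : P5 | 0 < (fun v : Fin 6 → ℝ => v a ^ 2 - v b ^ 2) x.rep} := by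
    intro a b
    refine isOpen_of_pos (fun v : Fin 6 → ℝ => v a ^ 2 - v b ^ 2) (by fun_prop) ?_
    intro c hc v
    simp only [Pi.smul_apply, smul_eq_mul, mul_pow, ← mul_sub]
    exact mul_pos_iff_of_pos_left (by positivity)
  have hmk : ∀ (a b : Fin 6) (v : Fin 6 → ℝ) (hv : v ≠ 0),
      Projectivization.mk ℝ v hv ∈ {x : P5 | 0 < (fun v : Fin 6 → ℝ => v a ^ 2 - v b ^ 2) x.rep} ↔
      0 < v a ^ 2 - v b ^ 2 := by
    intro a b v hv
    obtain ⟨c, hc⟩ := Projectivization.exists_smul_eq_mk_rep ℝ v hv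
    change 0 < (Projectivization.mk ℝ v hv).rep a ^ 2 - (Projectivization.mk ℝ v hv).rep b ^ 2 ↔ _
    rw [← hc]
    have : c • v = (c : ℝ) • v := rfl
    rw [this]
    simp only [Pi.smul_apply, smul_eq_mul, mul_pow, ← mul_sub]
    exact mul_pos_iff_of_pos_left (pow_pos_of_ne c)
  have hcover : S ⊆ {x : P5 | 0 < (fun v : Fin 6 → ℝ => v 0 ^ 2 - v 5 ^ 2) x.rep} ∪
      {x : P5 | 0 < (fun v : Fin 6 → ℝ => v 5 ^ 2 - v 0 ^ 2) x.rep} := by
    intro x hx
    obtain ⟨v, hv, rfl, hn, hp⟩ := exists_rep hx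
    have h0 : 0 ≤ v 0 := by simpa [fv_inl] using hn (Sum.inl 0)
    have h5 : 0 ≤ v 5 := by simpa [fv_inl] using hn (Sum.inl 5)
    rw [Set.mem_union, hmk, hmk]
    rcases lt_or_gt_of_ne (ne_of_mem v hv hn hp) with h1 | h1
    · right
      nlinarith
    · left
      nlinarith
  have hmem : ∀ v : Fin 6 → ℝ, (hv : v ≠ 0) → (∀ i, 0 ≤ v i) →
      0 ≤ 3 * v 0 - 5 * v 1 - 4 * v 2 - 4 * v 3 - 5 * v 4 + 3 * v 5 → pl v = 0 →
      Projectivization.mk ℝ v hv ∈ S := by
    intro v hv h1 h2 h3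
    refine mem_S_of_nonneg v hv ?_ h3
    rintro (i | i)
    · rw [fv_inl]
      exact h1 i
    · rw [fv_inr]
      exact h2
  have hA : (![1, 0, 0, 0, 0, 0] : Fin 6 → ℝ) ≠ 0 := fun h => by
    have := congrFun h 0
    simp at this
  have hB : (![0, 0, 0, 0, 0, 1] : Fin 6 → ℝ) ≠ 0 := fun h => by
    have := congrFun h 5
    simp at this
  have h1 := h _ _ (hU 0 5) (hU 5 0) hcover
    ⟨Projectivization.mk ℝ _ hA, hmem _ hA (by intro i; fin_cases i <;> simp) (by simp)
      (by simp [pl]), (hmk 0 5 _ hA).2 (by simp)⟩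
    ⟨Projectivization.mk ℝ _ hB, hmem _ hB (by intro i; fin_cases i <;> simp) (by simp)
      (by simp [pl]), (hmk 5 0 _ hB).2 (by simp)⟩
  obtain ⟨x, -, hx1, hx2⟩ := h1
  have e1 : 0 < x.rep 0 ^ 2 - x.rep 5 ^ 2 := hx1
  have e2 : 0 < x.rep 5 ^ 2 - x.rep 0 ^ 2 := hx2
  linarith

/-- **A disconnected positive polytope in `Gr(2,4)`.** There is a positive polytope in `Gr(2,4)`
(with `m = 1`, a positive pentahedron) which is not connected; in particular it is not
contractible. -/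
theorem result : ∃ (h : Fin 1 → Fin 6 → ℝ) (S : Set P5),
    IsPositivePolytope h S ∧ ¬ IsConnected S ∧ ¬ ContractibleSpace S := by
  refine ⟨hh, S, isPositivePolytope_S, fun h => not_isPreconnected_S h.isPreconnected, ?_⟩
  intro h
  apply not_isPreconnected_S
  rw [isPreconnected_iff_preconnectedSpace]
  have : PathConnectedSpace S := inferInstance
  infer_instance

end Pool.Agent.Results.MP_7a7825_ag.Disconnected
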